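import Pool.Agent.helper18.SP.D2
import Pool.Agent.helper12.SP.K1

/-!
# The diagonal language is computable within polynomial bounds (module D3)
-/

set_option autoImplicit false

namespace Pool.Agent.helper12.SP

section D3

variable {α : Type} [Ctx α] {bd N p κ n q M Z Λ r v : α → ℕ}

theorem Cmp.sm (hN : Cmp bd N) (hp : Cmp bd p) (hp1 : ∀ a, 1 ≤ p a) (hκ : Cmp bd κ)
    (hn : Cmp bd n) (hq : Cmp bd q) (hM : Cmp bd M) (hZ : Cmp bd Z) (hr : Cmp bd r) :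
    Cmp bd (fun a => SP.sm (N a) (p a) (κ a) (n a) (q a) (M a) (Z a) (r a)) :=
  Cmp.ot hN hp hp1 hκ hq hM (Cmp.add (Cmp.pw hN (Cmp.const 2) hn) hr) hZ

theorem Cmp.sv (hN : Cmp bd N) (hp : Cmp bd p) (hp1 : ∀ a, 1 ≤ p a) (hκ : Cmp bd κ)
    (hn : Cmp bd n) (hq : Cmp bd q) (hM : Cmp bd M) (hZ : Cmp bd Z) (hΛ : Cmp bd Λ)
    (hr : Cmp bd r) :
    Cmp bd (fun a => SP.sv (N a) (p a) (κ a) (n a) (q a) (M a) (Z a) (Λ a) (r a)) := by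
  have h1 : CmpP (fun x : α × ℕ => bd x.1 + x.2)
      (fun x : α × ℕ => SP.sm (N x.1) (p x.1) (κ x.1) (n x.1) (q x.1) (M x.1) (Z x.1) x.2 +
        SP.dg (N x.1) 2 (Λ x.1) x.2 = 1) :=
    CmpP.eq (Cmp.add (Cmp.sm hN.wk1 hp.wk1 (fun x => hp1 x.1) hκ.wk1 hn.wk1 hq.wk1 hM.wk1 hZ.wk1
      (Cmp.i bd)) (Cmp.dg hN.wk1 (Cmp.const 2) hΛ.wk1 (Cmp.i bd))) (Cmp.const 1)
  have h2 := CmpP.ball hr h1
  exact Cmp.ite h2 (Cmp.const 1) (Cmp.const 0)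

theorem Cmp.ct (hN : Cmp bd N) (hp : Cmp bd p) (hp1 : ∀ a, 1 ≤ p a) (hκ : Cmp bd κ)
    (hn : Cmp bd n) (hv : Cmp bd v) (hΛ : Cmp bd Λ) (hr : Cmp bd r) :
    Cmp bd (fun a => SP.ct (N a) (p a) (κ a) (n a) (v a) (Λ a) (r a)) := by
  refine Cmp.sum (h := fun x : α × ℕ => ∑ M ∈ Finset.range (n x.1),
    ∑ Z ∈ Finset.range (SP.pw (N x.1) 2 (SP.pw (N x.1) 2 (n x.1) + 1 - n x.1)),
    (if SP.sm (N x.1) (p x.1) (κ x.1) (n x.1) x.2 M Z (r x.1) = v x.1 then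
      SP.sv (N x.1) (p x.1) (κ x.1) (n x.1) x.2 M Z (Λ x.1) (r x.1) else 0)) hn ?_
  refine Cmp.sum (h := fun y : (α × ℕ) × ℕ =>
    ∑ Z ∈ Finset.range (SP.pw (N y.1.1) 2 (SP.pw (N y.1.1) 2 (n y.1.1) + 1 - n y.1.1)),
    (if SP.sm (N y.1.1) (p y.1.1) (κ y.1.1) (n y.1.1) y.1.2 y.2 Z (r y.1.1) = v y.1.1 then
      SP.sv (N y.1.1) (p y.1.1) (κ y.1.1) (n y.1.1) y.1.2 y.2 Z (Λ y.1.1) (r y.1.1) else 0))
    hn.wk1 ?_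
  refine Cmp.sum (h := fun z : ((α × ℕ) × ℕ) × ℕ =>
    (if SP.sm (N z.1.1.1) (p z.1.1.1) (κ z.1.1.1) (n z.1.1.1) z.1.1.2 z.1.2 z.2 (r z.1.1.1) =
      v z.1.1.1 then
      SP.sv (N z.1.1.1) (p z.1.1.1) (κ z.1.1.1) (n z.1.1.1) z.1.1.2 z.1.2 z.2 (Λ z.1.1.1)
        (r z.1.1.1) else 0))
    (Cmp.pw hN.wk1.wk1 (Cmp.const 2) (Cmp.sub (Cmp.add (Cmp.pw hN.wk1.wk1 (Cmp.const 2)
      hn.wk1.wk1) (Cmp.const 1)) hn.wk1.wk1)) ?_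
  have hq3 : Cmp (fun z : ((α × ℕ) × ℕ) × ℕ => bd z.1.1.1 + z.1.1.2 + z.1.2 + z.2)
      (fun z => z.1.1.2) := (Cmp.i bd).wk1.wk1
  have hM3 : Cmp (fun z : ((α × ℕ) × ℕ) × ℕ => bd z.1.1.1 + z.1.1.2 + z.1.2 + z.2)
      (fun z => z.1.2) := (Cmp.i (fun x : α × ℕ => bd x.1 + x.2)).wk1
  have hZ3 : Cmp (fun z : ((α × ℕ) × ℕ) × ℕ => bd z.1.1.1 + z.1.1.2 + z.1.2 + z.2)
      (fun z => z.2) := Cmp.i (fun y : (α × ℕ) × ℕ => bd y.1.1 + y.1.2 + y.2)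
  exact Cmp.ite (CmpP.eq (Cmp.sm hN.wk1.wk1.wk1 hp.wk1.wk1.wk1 (fun z => hp1 z.1.1.1)
      hκ.wk1.wk1.wk1 hn.wk1.wk1.wk1 hq3 hM3 hZ3 hr.wk1.wk1.wk1) hv.wk1.wk1.wk1)
    (Cmp.sv hN.wk1.wk1.wk1 hp.wk1.wk1.wk1 (fun z => hp1 z.1.1.1) hκ.wk1.wk1.wk1 hn.wk1.wk1.wk1
      hq3 hM3 hZ3 hΛ.wk1.wk1.wk1 hr.wk1.wk1.wk1) (Cmp.const 0)

theorem Cmp.lb (hN : Cmp bd N) (hp : Cmp bd p) (hp1 : ∀ a, 1 ≤ p a) (hκ : Cmp bd κ)
    (hn : Cmp bd n) (hΛ : Cmp bd Λ) (hr : Cmp bd r) :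
    Cmp bd (fun a => SP.lb (N a) (p a) (κ a) (n a) (Λ a) (r a)) :=
  Cmp.ite (CmpP.le (Cmp.ct hN hp hp1 hκ hn (Cmp.const 0) hΛ hr)
    (Cmp.ct hN hp hp1 hκ hn (Cmp.const 1) hΛ hr)) (Cmp.const 1) (Cmp.const 0)

theorem lb_le (N p κ n Λ r : ℕ) : SP.lb N p κ n Λ r ≤ 1 := by
  unfold lb
  split_ifs <;> simp

theorem la_le (N p κ n r : ℕ) : SP.la N p κ n r ≤ r * N := by
  induction r with
  | zero => exact (Nat.zero_le _)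
  | succ r ih =>
    have h1 : SP.la N p κ n (r + 1) =
      SP.la N p κ n r + SP.lb N p κ n (SP.la N p κ n r) r * SP.pw N 2 r := rfl
    rw [h1]
    have h2 : SP.lb N p κ n (SP.la N p κ n r) r * SP.pw N 2 r ≤ 1 * N :=
      Nat.mul_le_mul (lb_le _ _ _ _ _ _) (min_le_right _ _)
    calc _ ≤ r * N + 1 * N := Nat.add_le_add ih h2
      _ = (r + 1) * N := by ring

theorem Cmp.la (hN : Cmp bd N) (hp : Cmp bd p) (hp1 : ∀ a, 1 ≤ p a) (hκ : Cmp bd κ)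
    (hn : Cmp bd n) (hr : Cmp bd r) :
    Cmp bd (fun a => SP.la (N a) (p a) (κ a) (n a) (r a)) := by
  refine Cmp.natRec (g := fun _ => 0) (m := r)
    (h := fun x : α × ℕ × ℕ => x.2.2 + SP.lb (N x.1) (p x.1) (κ x.1) (n x.1) x.2.2 x.2.1 *
      SP.pw (N x.1) 2 x.2.1) Cmp.zero hr ?_ ?_
  · exact Cmp.add (Cmp.ih bd) (Cmp.mul (Cmp.lb hN.wk hp.wk (fun x => hp1 x.1) hκ.wk hn.wk
      (Cmp.ih bd) (Cmp.y bd)) (Cmp.pw hN.wk (Cmp.const 2) (Cmp.y bd)))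
  · obtain ⟨C, hC⟩ := Pb.mul hr.pb hN.pb
    refine ⟨C, fun a y hy => le_trans (la_le (N a) (p a) (κ a) (n a) y) (le_trans ?_ (hC a))⟩
    exact Nat.mul_le_mul_right _ hy

/-! ### The parameters -/

theorem two_pow_le_capN (c X e : ℕ) (h : e ≤ 8 * (c + 8) * 2 ^ (c * Nat.log 2 X)) :
    2 ^ e ≤ capN c X := Nat.pow_le_pow_right (by norm_num) h

theorem log_lt (c X : ℕ) (hc : 1 ≤ c) : Nat.log 2 X + 1 ≤ 2 ^ (c * Nat.log 2 X) := by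
  have h1 : Nat.log 2 X < 2 ^ Nat.log 2 X := Nat.lt_two_pow_self
  have h2 : (2 : ℕ) ^ Nat.log 2 X ≤ 2 ^ (c * Nat.log 2 X) :=
    Nat.pow_le_pow_right (by norm_num) (Nat.le_mul_of_pos_left _ hc)
  omega

theorem le_eight (c t : ℕ) : t ≤ 8 * (c + 8) * t := Nat.le_mul_of_pos_left _ (by positivity)

theorem Pb.ofLe {f g : ℕ → ℕ} (h : ∀ a, f a ≤ g a) : Pb g f := Pb.of_le h Pb.self

/-- D3 -/
theorem cmp_dia (c : ℕ) (hc : 1 ≤ c) : Cmp (capN c) (dia c) := by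
  have hX : Cmp (capN c) (fun X : ℕ => X) := by
    refine Cmp.var (Pb.ofLe fun X => ?_)
    have h1 : X < 2 ^ (Nat.log 2 X + 1) := Nat.lt_pow_succ_log_self (by norm_num) X
    exact h1.le.trans (two_pow_le_capN c X _ ((log_lt c X hc).trans (le_eight c _)))
  have hn : Cmp (capN c) (fun X : ℕ => Nat.log 2 X) := Cmp.log hX
  have hcn : Cmp (capN c) (fun X : ℕ => 2 ^ (c * Nat.log 2 X)) := by
    refine Cmp.two_pow (Cmp.mul (Cmp.const c) hn) (Pb.ofLe fun X => ?_)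
    exact two_pow_le_capN c X _ (Nat.lt_two_pow_self.le.trans (le_eight c _))
  have hN : Cmp (capN c) (fun X : ℕ => capN c X) :=
    Cmp.two_pow (Cmp.mul (Cmp.const _) hcn) Pb.self
  have h2n : Cmp (capN c) (fun X : ℕ => 2 ^ Nat.log 2 X) := by
    refine Cmp.two_pow hn (Pb.ofLe fun X => ?_)
    refine two_pow_le_capN c X _ (le_trans ?_ (le_eight c _))
    have := log_lt c X hc
    omega
  have hκ : Cmp (capN c) (fun X : ℕ => kap c (Nat.log 2 X)) :=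
    Cmp.div hcn (Cmp.pow_const (Cmp.succ hn) 2)
  have hp : Cmp (capN c) (fun X : ℕ => np (4 * kap c (Nat.log 2 X) + 2)) :=
    Cmp.np (Cmp.add (Cmp.mul (Cmp.const 4) hκ) (Cmp.const 2))
  have hp1 : ∀ X : ℕ, 1 ≤ np (4 * kap c (Nat.log 2 X) + 2) := fun X =>
    (np_prime (by omega)).1.one_le
  have hr : Cmp (capN c) (fun X : ℕ => X - 2 ^ Nat.log 2 X) := Cmp.sub hX h2n
  exact Cmp.lb hN hp hp1 hκ hn (Cmp.la hN hp hp1 hκ hn hr) hr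

end D3

end Pool.Agent.helper12.SP
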